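import Pool.Agent.H53.Lib.R_pool_sql_team_seeded_63374d34.N60.GD.Rep

/-!
# Gluing representations of finitely many subgroups
-/

set_option autoImplicit false

namespace Pool.Agent.N60.GD

open Module Matrix
open scoped IsMulCommutative

variable {k : Type*} [Field k] [IsAlgClosed k] [CharZero k] {n : ℕ} {Γ : Type*} [Group Γ]

/-- an invertible matrix that commutes with an irreducible family is central -/
theorem central_of_comm {S : Set Γ} {f : Γ → GL (Fin n) k} (hf : IrrOn S f) (A : GL (Fin n) k)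
    (hA : ∀ h ∈ S, A * f h = f h * A) :
    (∃ c : k, (A : Matrix (Fin n) (Fin n) k) = c • 1) ∧ A ∈ Subgroup.center (GL (Fin n) k) := by
  obtain ⟨c, hc⟩ := schur hf (A : Matrix (Fin n) (Fin n) k) (fun h hh => by
    have := hA h hh
    have h2 := congrArg Units.val this
    rwa [Units.val_mul, Units.val_mul] at h2)
  refine ⟨⟨c, hc⟩, ?_⟩
  rw [Subgroup.mem_center_iff]
  intro g
  apply Units.ext
  rw [Units.val_mul, Units.val_mul, hc, Matrix.mul_smul, Matrix.smul_mul, mul_one, one_mul]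

/-- two extensions of an irreducible representation with the same traces are equal -/
theorem ext_unique {N U : Subgroup Γ} (hNU : N ≤ U) {τ f f' : Γ → GL (Fin n) k}
    (hirr : IrrOn (N : Set Γ) τ) (hf : ∀ u ∈ U, ∀ v ∈ U, f (u * v) = f u * f v)
    (hf' : ∀ u ∈ U, ∀ v ∈ U, f' (u * v) = f' u * f' v)
    (h1 : ∀ u ∈ N, f u = τ u) (h1' : ∀ u ∈ N, f' u = τ u)
    (htr : ∀ u ∈ U, (f u : Matrix (Fin n) (Fin n) k).trace =
      (f' u : Matrix (Fin n) (Fin n) k).trace) :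
    ∀ u ∈ U, f u = f' u := by
  have hN : IrrOn (N : Set Γ) f := ⟨hirr.1, fun W hW => hirr.2 W fun h hh w hw => by
    rw [← h1 h hh]; exact hW h hh w hw⟩
  have hN' : IrrOn (N : Set Γ) f' := ⟨hirr.1, fun W hW => hirr.2 W fun h hh w hw => by
    rw [← h1' h hh]; exact hW h hh w hw⟩
  obtain ⟨P, hP⟩ := conj_of_trace U hf hf' (hN.mono hNU) (hN'.mono hNU) htr
  have hc := (central_of_comm hirr P fun h hh => by
    have h2 := hP h (hNU hh)
    rw [h1 h hh, h1' h hh] at h2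
    exact (eq_mul_inv_iff_mul_eq.1 h2).symm).2
  intro u hu
  rw [hP u hu, ← (Subgroup.mem_center_iff.1 hc (f u)), mul_assoc, mul_inv_cancel, mul_one]

/-- compatible representations of the subgroups `U i`, irreducible on `N` -/
structure Dat (N : Subgroup Γ) {ι : Type*} (U : ι → Subgroup Γ) (s : ι → Γ → GL (Fin n) k) :
    Prop where
  hNU : ∀ i, N ≤ U i
  hom : ∀ i, ∀ u ∈ U i, ∀ v ∈ U i, s i (u * v) = s i u * s i v
  irr : ∀ i, IrrOn (N : Set Γ) (s i)
  tr : ∀ i j (g u : Γ), u ∈ U i → g * u * g⁻¹ ∈ U j →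
    (s j (g * u * g⁻¹) : Matrix (Fin n) (Fin n) k).trace =
      (s i u : Matrix (Fin n) (Fin n) k).trace
  cov : ∀ g : Γ, ∃ i x, x * g * x⁻¹ ∈ U i

variable {N : Subgroup Γ} [N.Normal] {ι : Type*} {U : ι → Subgroup Γ} {s : ι → Γ → GL (Fin n) k}

/-- the set-theoretic gluing -/
structure Glue (N : Subgroup Γ) {ι : Type*} (U : ι → Subgroup Γ) (s : ι → Γ → GL (Fin n) k)
    (T : Γ → GL (Fin n) k) : Prop where
  irr : IrrOn (N : Set Γ) T
  loc : ∀ i x, ∃ Q : GL (Fin n) k, ∀ u, x * u * x⁻¹ ∈ U i →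
    T u = Q⁻¹ * s i (x * u * x⁻¹) * Q

theorem Dat.exists_glue (D : Dat N U s) : ∃ (i₀ : ι) (T : Γ → GL (Fin n) k),
    Glue N U s T ∧ ∀ m ∈ N, T m = s i₀ m := by
  obtain ⟨i₀, -, -⟩ := D.cov 1
  have hconj : ∀ (x m : Γ), m ∈ N → x * m * x⁻¹ ∈ N := fun x m hm =>
    Subgroup.Normal.conj_mem inferInstance m hm x
  have hQ : ∀ (i : ι) (x : Γ), ∃ Q : GL (Fin n) k, ∀ m ∈ N, s i (x * m * x⁻¹) =
      Q * s i₀ m * Q⁻¹ := by
    intro i x
    refine conj_of_trace N (f := s i₀) (f' := fun m => s i (x * m * x⁻¹))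
      (fun u hu v hv => D.hom i₀ u (D.hNU _ hu) v (D.hNU _ hv)) (fun u hu v hv => ?_) (D.irr i₀)
      ⟨(D.irr i).1, fun W hW => (D.irr i).2 W fun h hh w hw => ?_⟩ (fun u hu => ?_)
    · have h1 : x * (u * v) * x⁻¹ = (x * u * x⁻¹) * (x * v * x⁻¹) := by group
      change s i (x * (u * v) * x⁻¹) = _
      rw [h1]
      exact D.hom i _ (D.hNU _ (hconj x u hu)) _ (D.hNU _ (hconj x v hv))
    · have h1 := hW (x⁻¹ * h * x⁻¹⁻¹) (hconj x⁻¹ h hh) w hw
      have h2 : x * (x⁻¹ * h * x⁻¹⁻¹) * x⁻¹ = h := by group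
      change (s i (x * (x⁻¹ * h * x⁻¹⁻¹) * x⁻¹) : Matrix (Fin n) (Fin n) k).mulVec w ∈ W at h1
      rwa [h2] at h1
    · exact (D.tr i₀ i x u (D.hNU _ hu) (D.hNU _ (hconj x u hu))).symm
  choose Q hQ using hQ
  choose ci cx hc using D.cov
  set r : ι → Γ → Γ → GL (Fin n) k := fun i x u => (Q i x)⁻¹ * s i (x * u * x⁻¹) * Q i x with hr
  have hrN : ∀ i x, ∀ m ∈ N, r i x m = s i₀ m := by
    intro i x m hm
    rw [hr]
    simp only
    rw [hQ i x m hm]
    group
  have hrhom : ∀ i x u v, x * u * x⁻¹ ∈ U i → x * v * x⁻¹ ∈ U i →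
      r i x (u * v) = r i x u * r i x v := by
    intro i x u v hu hv
    have h1 : x * (u * v) * x⁻¹ = (x * u * x⁻¹) * (x * v * x⁻¹) := by group
    rw [hr]
    simp only
    rw [h1, D.hom i _ hu _ hv]
    group
  have hrtr : ∀ i x u, (r i x u : Matrix (Fin n) (Fin n) k).trace =
      (s i (x * u * x⁻¹) : Matrix (Fin n) (Fin n) k).trace := by
    intro i x u
    rw [hr]
    simp only
    rw [Units.val_mul, Units.val_mul, Matrix.trace_mul_comm, ← mul_assoc, ← Units.val_mul,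
      mul_inv_cancel, Units.val_one, one_mul]
  have huniq : ∀ i x j y u, x * u * x⁻¹ ∈ U i → y * u * y⁻¹ ∈ U j → r i x u = r j y u := by
    intro i x j y u hu hu'
    refine ext_unique (N := N)
      (U := (U i).comap (MulAut.conj x).toMonoidHom ⊓ (U j).comap (MulAut.conj y).toMonoidHom)
      (fun m hm => ⟨D.hNU _ (hconj x m hm), D.hNU _ (hconj y m hm)⟩) (D.irr i₀)
      (fun a ha b hb => hrhom i x a b ha.1 hb.1) (fun a ha b hb => hrhom j y a b ha.2 hb.2)
      (hrN i x) (hrN j y) (fun a ha => ?_) u ⟨hu, hu'⟩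
    rw [hrtr, hrtr]
    have h1 : (y * x⁻¹) * (x * a * x⁻¹) * (y * x⁻¹)⁻¹ = y * a * y⁻¹ := by group
    have h2 := D.tr i j (y * x⁻¹) (x * a * x⁻¹) ha.1 (by rw [h1]; exact ha.2)
    rw [h1] at h2
    exact h2.symm
  set T : Γ → GL (Fin n) k := fun g => r (ci g) (cx g) g with hT
  have hTr : ∀ i x u, x * u * x⁻¹ ∈ U i → T u = r i x u := fun i x u hu =>
    huniq _ _ _ _ u (hc u) hu
  have hTN : ∀ m ∈ N, T m = s i₀ m := fun m hm => by
    rw [hTr i₀ 1 m (D.hNU _ (hconj 1 m hm))]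
    exact hrN _ _ m hm
  refine ⟨i₀, T, ⟨⟨(D.irr i₀).1, fun W hW => (D.irr i₀).2 W fun h hh w hw => ?_⟩,
    fun i x => ⟨Q i x, fun u hu => hTr i x u hu⟩⟩, hTN⟩
  rw [← hTN h hh]
  exact hW h hh w hw

section glue

variable {T : Γ → GL (Fin n) k}

theorem Glue.hom (D : Dat N U s) (G : Glue N U s T) (i : ι) (x u v : Γ)
    (hu : x * u * x⁻¹ ∈ U i) (hv : x * v * x⁻¹ ∈ U i) : T (u * v) = T u * T v := by
  obtain ⟨Q, hQ⟩ := G.loc i x
  have h1 : x * (u * v) * x⁻¹ = (x * u * x⁻¹) * (x * v * x⁻¹) := by group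
  rw [hQ u hu, hQ v hv, hQ (u * v) (by rw [h1]; exact (U i).mul_mem hu hv), h1, D.hom i _ hu _ hv]
  group

theorem Glue.trace (G : Glue N U s T) (i : ι) (x u : Γ) (hu : x * u * x⁻¹ ∈ U i) :
    (T u : Matrix (Fin n) (Fin n) k).trace =
      (s i (x * u * x⁻¹) : Matrix (Fin n) (Fin n) k).trace := by
  obtain ⟨Q, hQ⟩ := G.loc i x
  rw [hQ u hu, Units.val_mul, Units.val_mul, Matrix.trace_mul_comm, ← mul_assoc, ← Units.val_mul,
      mul_inv_cancel, Units.val_one, one_mul]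

theorem Glue.det (G : Glue N U s T) (i : ι) (x u : Γ) (hu : x * u * x⁻¹ ∈ U i) :
    Matrix.GeneralLinearGroup.det (T u) = Matrix.GeneralLinearGroup.det (s i (x * u * x⁻¹)) := by
  obtain ⟨Q, hQ⟩ := G.loc i x
  rw [hQ u hu, map_mul, map_mul, map_inv, mul_comm, ← mul_assoc, mul_inv_cancel, one_mul]

theorem Glue.one (D : Dat N U s) (G : Glue N U s T) : T 1 = 1 := by
  obtain ⟨i, x, h⟩ := D.cov 1
  have h1 := Glue.hom D G i x 1 1 h h
  rw [mul_one] at h1
  have := mul_left_cancel (a := T 1) (b := 1) (c := T 1) (by rw [mul_one, ← h1])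
  exact this.symm

theorem Glue.inv (D : Dat N U s) (G : Glue N U s T) (g : Γ) : T g⁻¹ = (T g)⁻¹ := by
  obtain ⟨i, x, h⟩ := D.cov g
  have h' : x * g⁻¹ * x⁻¹ ∈ U i := by
    have := (U i).inv_mem h
    have h1 : (x * g * x⁻¹)⁻¹ = x * g⁻¹ * x⁻¹ := by group
    rwa [h1] at this
  have h1 := Glue.hom D G i x g⁻¹ g h' h
  rw [inv_mul_cancel, Glue.one D G] at h1
  exact eq_inv_of_mul_eq_one_left h1.symm

theorem Glue.pow (D : Dat N U s) (G : Glue N U s T) (g : Γ) (m : ℕ) : T (g ^ m) = T g ^ m := by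
  obtain ⟨i, x, h⟩ := D.cov g
  induction m with
  | zero => rw [pow_zero, pow_zero, Glue.one D G]
  | succ m ih =>
    have h' : x * g ^ m * x⁻¹ ∈ U i := by
      have := (U i).pow_mem h m
      rwa [conj_pow] at this
    rw [pow_succ, Glue.hom D G i x (g ^ m) g h' h, ih, pow_succ]

/-- conjugation on `N` -/
theorem Glue.conjN (D : Dat N U s) (G : Glue N U s T) (g m : Γ) (hm : m ∈ N) :
    T g * T m * (T g)⁻¹ = T (g * m * g⁻¹) := by
  obtain ⟨i, x, h⟩ := D.cov g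
  have hconj : ∀ (x m : Γ), m ∈ N → x * m * x⁻¹ ∈ N := fun x m hm =>
    Subgroup.Normal.conj_mem inferInstance m hm x
  have h1 : x * m * x⁻¹ ∈ U i := D.hNU _ (hconj x m hm)
  have h2 : x * g⁻¹ * x⁻¹ ∈ U i := by
    have := (U i).inv_mem h
    have h1 : (x * g * x⁻¹)⁻¹ = x * g⁻¹ * x⁻¹ := by group
    rwa [h1] at this
  have h3 : x * (g * m) * x⁻¹ ∈ U i := by
    have := (U i).mul_mem h h1
    have h4 : (x * g * x⁻¹) * (x * m * x⁻¹) = x * (g * m) * x⁻¹ := by group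
    rwa [h4] at this
  rw [Glue.hom D G i x (g * m) g⁻¹ h3 h2, Glue.hom D G i x g m h h1, Glue.inv D G]

/-- the gluing is equivariant under conjugation -/
theorem Glue.conj (D : Dat N U s) (G : Glue N U s T) (x g : Γ) :
    T (x * g * x⁻¹) = T x * T g * (T x)⁻¹ := by
  obtain ⟨j, y, h⟩ := D.cov g
  have hconj : ∀ (x m : Γ), m ∈ N → x * m * x⁻¹ ∈ N := fun x m hm =>
    Subgroup.Normal.conj_mem inferInstance m hm x
  have key := ext_unique (N := N) (U := (U j).comap (MulAut.conj y).toMonoidHom)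
      (τ := T) (f := T) (f' := fun u => (T x)⁻¹ * T (x * u * x⁻¹) * T x)
      (fun m hm => D.hNU _ (hconj y m hm)) G.irr
      (fun a ha b hb => Glue.hom D G j y a b ha hb) (fun a ha b hb => by
        have e1 : ∀ c, (y * x⁻¹) * (x * c * x⁻¹) * (y * x⁻¹)⁻¹ = y * c * y⁻¹ := fun c => by group
        have h1 := Glue.hom D G j (y * x⁻¹) (x * a * x⁻¹) (x * b * x⁻¹)
          (by rw [e1]; exact ha) (by rw [e1]; exact hb)
        have h2 : x * (a * b) * x⁻¹ = (x * a * x⁻¹) * (x * b * x⁻¹) := by group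
        rw [h2, h1]
        group) (fun u _ => rfl) (fun m hm => by
        rw [← Glue.conjN D G x m hm]
        group) (fun a ha => by
        have e1 : (y * x⁻¹) * (x * a * x⁻¹) * (y * x⁻¹)⁻¹ = y * a * y⁻¹ := by group
        rw [Units.val_mul, Units.val_mul, Matrix.trace_mul_comm, ← mul_assoc, ← Units.val_mul,
          mul_inv_cancel, Units.val_one, one_mul, G.trace j y a ha,
          G.trace j (y * x⁻¹) (x * a * x⁻¹) (by rw [e1]; exact ha), e1]) g h
  rw [key]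
  group

/-- the obstruction is central -/
theorem Glue.central (D : Dat N U s) (G : Glue N U s T) (A : GL (Fin n) k) (g : Γ)
    (hA : ∀ m ∈ N, A * T m * A⁻¹ = T (g * m * g⁻¹)) :
    (∃ c : k, (((T g)⁻¹ * A : GL (Fin n) k) : Matrix (Fin n) (Fin n) k) = c • 1) ∧
      (T g)⁻¹ * A ∈ Subgroup.center (GL (Fin n) k) := by
  refine central_of_comm G.irr _ fun m hm => ?_
  have h1 := hA m hm
  rw [← Glue.conjN D G g m hm] at h1
  have h2 : A * T m = T g * T m * (T g)⁻¹ * A := by rw [← h1]; group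
  rw [mul_assoc, h2]
  group

end glue

/-- the group of the pairs `(A, g)` where `A` acts on the restriction to `N` as `g` does -/
def EE (N : Subgroup Γ) [N.Normal] (T : Γ → GL (Fin n) k) : Subgroup (GL (Fin n) k × Γ) where
  carrier := {a | ∀ m ∈ N, a.1 * T m * a.1⁻¹ = T (a.2 * m * a.2⁻¹)}
  mul_mem' := by
    intro a b ha hb m hm
    have h1 := hb m hm
    have h2 := ha (b.2 * m * b.2⁻¹) (Subgroup.Normal.conj_mem inferInstance m hm b.2)
    rw [← h1] at h2
    rw [Prod.fst_mul, Prod.snd_mul]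
    have e1 : a.1 * b.1 * T m * (a.1 * b.1)⁻¹ = a.1 * (b.1 * T m * b.1⁻¹) * a.1⁻¹ := by group
    have e2 : a.2 * b.2 * m * (a.2 * b.2)⁻¹ = a.2 * (b.2 * m * b.2⁻¹) * a.2⁻¹ := by group
    rw [e1, e2, h2]
  one_mem' := by
    intro m _
    simp
  inv_mem' := by
    intro a ha m hm
    have h2 := ha (a.2⁻¹ * m * a.2⁻¹⁻¹) (Subgroup.Normal.conj_mem inferInstance m hm a.2⁻¹)
    have e2 : a.2 * (a.2⁻¹ * m * a.2⁻¹⁻¹) * a.2⁻¹ = m := by group
    rw [e2] at h2
    rw [Prod.fst_inv, Prod.snd_inv, ← h2]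
    group

section transfer

variable {T : Γ → GL (Fin n) k}

theorem mem_EE (D : Dat N U s) (G : Glue N U s T) (g : Γ) : ((T g, g) : GL (Fin n) k × Γ) ∈
    EE N T := fun m hm => Glue.conjN D G g m hm

/-- the projection -/
def pr (N : Subgroup Γ) [N.Normal] (T : Γ → GL (Fin n) k) : EE N T →* Γ :=
  (MonoidHom.snd _ _).comp (EE N T).subtype

theorem pr_surj (D : Dat N U s) (G : Glue N U s T) : Function.Surjective (pr N T) :=
  fun g => ⟨⟨(T g, g), mem_EE D G g⟩, rfl⟩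

/-- the retraction onto the centre over `U i` -/
noncomputable def retr (D : Dat N U s) (G : Glue N U s T) (i : ι) :
    (U i).comap (pr N T) →* Subgroup.center (GL (Fin n) k) where
  toFun a := ⟨(T a.1.1.2)⁻¹ * a.1.1.1, (Glue.central D G a.1.1.1 a.1.1.2 a.1.2).2⟩
  map_one' := by
    apply Subtype.ext
    change (T 1)⁻¹ * 1 = 1
    rw [Glue.one D G]
    simp
  map_mul' := by
    intro a b
    apply Subtype.ext
    change (T (a.1.1.2 * b.1.1.2))⁻¹ * (a.1.1.1 * b.1.1.1) =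
      ((T a.1.1.2)⁻¹ * a.1.1.1) * ((T b.1.1.2)⁻¹ * b.1.1.1)
    have ha : (1 : Γ) * a.1.1.2 * 1⁻¹ ∈ U i := by
      rw [one_mul, inv_one, mul_one]; exact a.2
    have hb : (1 : Γ) * b.1.1.2 * 1⁻¹ ∈ U i := by
      rw [one_mul, inv_one, mul_one]; exact b.2
    have hc := (Glue.central D G a.1.1.1 a.1.1.2 a.1.2).2
    rw [Glue.hom D G i 1 _ _ ha hb, _root_.mul_inv_rev]
    have h1 := Subgroup.mem_center_iff.1 hc (T b.1.1.2)⁻¹
    calc (T b.1.1.2)⁻¹ * (T a.1.1.2)⁻¹ * (a.1.1.1 * b.1.1.1) =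
        ((T b.1.1.2)⁻¹ * ((T a.1.1.2)⁻¹ * a.1.1.1)) * b.1.1.1 := by group
      _ = _ := by rw [h1]; group

theorem retr_apply (D : Dat N U s) (G : Glue N U s T) (i : ι)
    (a : (U i).comap (pr N T)) : (retr D G i a : GL (Fin n) k) = (T a.1.1.2)⁻¹ * a.1.1.1 := rfl

/-- the transfer vanishes on the pairs `(T g, g)` -/
theorem transfer_section (D : Dat N U s) (G : Glue N U s T) (i : ι)
    [((U i).comap (pr N T)).FiniteIndex] (g : Γ) :
    MonoidHom.transfer (retr D G i) ⟨(T g, g), mem_EE D G g⟩ = 1 := by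
  classical
  let := (((U i).comap (pr N T))).fintypeQuotientOfFiniteIndex
  rw [MonoidHom.transfer_eq_prod_quotient_orbitRel_zpowers_quot]
  refine Finset.prod_eq_one fun q _ => ?_
  apply Subtype.ext
  rw [retr_apply]
  set e : EE N T := q.out.out with he
  set m : ℕ := Function.minimalPeriod
    ((⟨(T g, g), mem_EE D G g⟩ : EE N T) • · : EE N T ⧸ (U i).comap (pr N T) → _) q.out with hm
  have hc := (Glue.central D G e.1.1 e.1.2 e.2).2
  have h1 := Subgroup.mem_center_iff.1 hc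
  change (T (e.1.2⁻¹ * g ^ m * e.1.2))⁻¹ * (e.1.1⁻¹ * T g ^ m * e.1.1) = 1
  have e1 : e.1.2⁻¹ * g ^ m * e.1.2 = e.1.2⁻¹ * g ^ m * e.1.2⁻¹⁻¹ := by group
  rw [e1, Glue.conj D G, Glue.pow D G, Glue.inv D G]
  set z := (T e.1.2)⁻¹ * e.1.1 with hz
  have e2 : e.1.1 = T e.1.2 * z := by rw [hz]; group
  rw [e2]
  have h2 := h1 ((T e.1.2)⁻¹ * T g ^ m * T e.1.2)
  have h3 : (T e.1.2 * z)⁻¹ * T g ^ m * (T e.1.2 * z) =
      z⁻¹ * (((T e.1.2)⁻¹ * T g ^ m * T e.1.2) * z) := by group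
  rw [h3, h2]
  group

/-- the transfer on the centre -/
theorem transfer_center (D : Dat N U s) (G : Glue N U s T) (i : ι)
    [((U i).comap (pr N T)).FiniteIndex] (z : GL (Fin n) k)
    (hz : z ∈ Subgroup.center (GL (Fin n) k)) (hzE : ((z, 1) : GL (Fin n) k × Γ) ∈ EE N T) :
    (MonoidHom.transfer (retr D G i) ⟨(z, 1), hzE⟩ : GL (Fin n) k) = z ^ (U i).index := by
  have hcz := Subgroup.mem_center_iff.1 hz
  rw [MonoidHom.transfer_eq_pow (retr D G i) ⟨(z, 1), hzE⟩ (by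
    intro k' g₀ _
    apply Subtype.ext
    apply Prod.ext
    · change g₀.1.1⁻¹ * z ^ k' * g₀.1.1 = z ^ k'
      have h1 : z ^ k' ∈ Subgroup.center (GL (Fin n) k) := Subgroup.pow_mem _ hz _
      have h2 := Subgroup.mem_center_iff.1 h1 g₀.1.1
      rw [mul_assoc, ← h2]
      group
    · change g₀.1.2⁻¹ * 1 ^ k' * g₀.1.2 = 1 ^ k'
      simp)]
  rw [retr_apply]
  change (T (1 ^ _))⁻¹ * z ^ _ = _
  rw [one_pow, Glue.one D G, inv_one, one_mul,
    Subgroup.index_comap_of_surjective _ (pr_surj D G)]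

theorem mem_EE_mul (D : Dat N U s) (G : Glue N U s T) (g h : Γ) :
    ((T g * T h, g * h) : GL (Fin n) k × Γ) ∈ EE N T := by
  have h1 := (EE N T).mul_mem (mem_EE D G g) (mem_EE D G h)
  rwa [Prod.mk_mul_mk] at h1

theorem mem_EE_z (D : Dat N U s) (G : Glue N U s T) (g h : Γ) :
    (((T (g * h))⁻¹ * (T g * T h), 1) : GL (Fin n) k × Γ) ∈ EE N T := by
  have h1 := (EE N T).mul_mem ((EE N T).inv_mem (mem_EE D G (g * h))) (mem_EE_mul D G g h)
  rwa [Prod.inv_mk, Prod.mk_mul_mk, inv_mul_cancel] at h1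

/-- **the obstruction is killed by the index of every `U i`** -/
theorem obstruction_pow (D : Dat N U s) (G : Glue N U s T) (i : ι) (hfin : (U i).FiniteIndex)
    (g h : Γ) : ((T (g * h))⁻¹ * (T g * T h)) ^ (U i).index = 1 := by
  have hidx : ((U i).comap (pr N T)).index = (U i).index :=
    Subgroup.index_comap_of_surjective _ (pr_surj D G)
  have : ((U i).comap (pr N T)).FiniteIndex := ⟨by rw [hidx]; exact hfin.index_ne_zero⟩
  have hzc := (Glue.central D G (T g * T h) (g * h) (mem_EE_mul D G g h)).2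
  have hzE := mem_EE_z D G g h
  have h1 : (⟨(T g, g), mem_EE D G g⟩ : EE N T) * ⟨(T h, h), mem_EE D G h⟩ =
      ⟨(T (g * h), g * h), mem_EE D G (g * h)⟩ * ⟨((T (g * h))⁻¹ * (T g * T h), 1), hzE⟩ := by
    apply Subtype.ext
    rw [Subgroup.coe_mul, Subgroup.coe_mul, Prod.mk_mul_mk, Prod.mk_mul_mk, mul_one,
      mul_inv_cancel_left]
  have h2 := congrArg (MonoidHom.transfer (retr D G i)) h1
  rw [map_mul, map_mul, transfer_section, transfer_section, transfer_section, one_mul,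
    one_mul] at h2
  have h3 := congrArg (Subtype.val) h2
  rw [transfer_center D G i _ hzc hzE] at h3
  exact h3.symm

end transfer

/-- **Gluing.** If no prime divides all the indices of the subgroups `U i` (or if no prime does so
which divides `n`, and the determinants are known), then the gluing is a homomorphism. -/
theorem glue_hom {T : Γ → GL (Fin n) k} (D : Dat N U s) (G : Glue N U s T)
    (hfin : ∀ i, (U i).FiniteIndex)
    (hgcd : ∀ q : ℕ, q.Prime → (∀ i, q ∣ (U i).index) → ¬ q ∣ n ∧ ∃ δ : Γ →* kˣ,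
      ∀ i, ∀ u ∈ U i, Matrix.GeneralLinearGroup.det (s i u) = δ u) (g h : Γ) :
    T (g * h) = T g * T h := by
  obtain ⟨z, hz⟩ : ∃ z, z = (T (g * h))⁻¹ * (T g * T h) := ⟨_, rfl⟩
  obtain ⟨⟨c, hc⟩, -⟩ := Glue.central D G (T g * T h) (g * h) (mem_EE_mul D G g h)
  rw [← hz] at hc
  have hn : 0 < n := G.irr.1
  have hne : Nonempty (Fin n) := ⟨⟨0, hn⟩⟩
  have hinj : ∀ a b : k, a • (1 : Matrix (Fin n) (Fin n) k) = b • 1 → a = b := by
    intro a b hab
    have := congrFun (congrFun hab ⟨0, hn⟩) ⟨0, hn⟩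
    simpa using this
  have hpow : ∀ i, c ^ (U i).index = 1 := by
    intro i
    have h1 := congrArg Units.val (obstruction_pow D G i (hfin i) g h)
    rw [← hz, Units.val_pow_eq_pow_val, hc, smul_pow, one_pow, Units.val_one] at h1
    apply hinj
    rw [h1, one_smul]
  have hc1 : c = 1 := by
    obtain ⟨i₀, -, -⟩ := D.cov 1
    have hfo : IsOfFinOrder c := isOfFinOrder_iff_pow_eq_one.2
      ⟨_, Nat.pos_of_ne_zero (hfin i₀).index_ne_zero, hpow i₀⟩
    by_contra hne1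
    have ho : orderOf c ≠ 1 := fun h => hne1 (orderOf_eq_one_iff.1 h)
    obtain ⟨q, hq, hqo⟩ := Nat.exists_prime_and_dvd ho
    obtain ⟨hqn, δ, hδ⟩ := hgcd q hq fun i => hqo.trans (orderOf_dvd_of_pow_eq_one (hpow i))
    have hdet : ∀ x, Matrix.GeneralLinearGroup.det (T x) = δ x := by
      intro x
      obtain ⟨i, y, hy⟩ := D.cov x
      rw [G.det i y x hy, hδ i _ hy, map_mul, map_mul, map_inv, mul_comm, ← mul_assoc,
        inv_mul_cancel, one_mul]
    have hdz : Matrix.GeneralLinearGroup.det z = 1 := by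
      rw [hz, map_mul, map_inv, map_mul, hdet, hdet, hdet, map_mul, inv_mul_cancel]
    have hcn : c ^ n = 1 := by
      have h1 := congrArg Units.val hdz
      rw [Matrix.GeneralLinearGroup.val_det_apply, hc, Matrix.det_smul, Matrix.det_one, mul_one,
        Fintype.card_fin, Units.val_one] at h1
      exact h1
    exact hqn (hqo.trans (orderOf_dvd_of_pow_eq_one hcn))
  have hz1 : z = 1 := by
    apply Units.ext
    rw [hc, hc1, one_smul, Units.val_one]
  rw [hz] at hz1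
  exact (inv_mul_eq_one.1 hz1)

end Pool.Agent.N60.GD
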