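import Pool.Agent.H53.Lib.R_seed8.R401.Burn

/-!
# Irreducible representations on `k ^ n` given as functions on a group: Schur's lemma, and traces
determine irreducible representations
-/

set_option autoImplicit false

namespace Pool.Agent.N60.GD

open Module Matrix

variable {k : Type*} [Field k] {n : ℕ}

/-- the matrices `f h`, `h ∈ S`, have no common invariant subspace -/
def IrrOn {Γ : Type*} (S : Set Γ) (f : Γ → GL (Fin n) k) : Prop :=
  0 < n ∧ ∀ W : Submodule k (Fin n → k),
    (∀ h ∈ S, ∀ w ∈ W, (f h : Matrix (Fin n) (Fin n) k).mulVec w ∈ W) → W = ⊥ ∨ W = ⊤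

theorem IrrOn.mono {Γ : Type*} {S S' : Set Γ} {f : Γ → GL (Fin n) k} (h : IrrOn S f)
    (hS : S ⊆ S') : IrrOn S' f :=
  ⟨h.1, fun W hW => h.2 W fun x hx => hW x (hS hx)⟩

/-- **Schur's lemma** -/
theorem schur [IsAlgClosed k] {Γ : Type*} {S : Set Γ} {f : Γ → GL (Fin n) k} (hf : IrrOn S f)
    (A : Matrix (Fin n) (Fin n) k)
    (hA : ∀ h ∈ S, A * (f h : Matrix (Fin n) (Fin n) k) = (f h : Matrix (Fin n) (Fin n) k) * A) :
    ∃ c : k, A = c • (1 : Matrix (Fin n) (Fin n) k) := by
  have : Nonempty (Fin n) := ⟨⟨0, hf.1⟩⟩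
  have : Nontrivial (Fin n → k) := inferInstance
  obtain ⟨c, hc⟩ := Module.End.exists_eigenvalue (Matrix.toLin' A)
  refine ⟨c, ?_⟩
  have h1 : Module.End.eigenspace (Matrix.toLin' A) c = ⊤ := by
    rcases hf.2 (Module.End.eigenspace (Matrix.toLin' A) c) (fun h hh w hw => by
      rw [Module.End.mem_eigenspace_iff] at hw ⊢
      rw [Matrix.toLin'_apply] at hw ⊢
      rw [Matrix.mulVec_mulVec, hA h hh, ← Matrix.mulVec_mulVec, hw, Matrix.mulVec_smul]) with h | h
    · exact absurd h hc
    · exact h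
  have h3 : ∀ v : Fin n → k, A.mulVec v = c • v := fun v => by
    have h3 : v ∈ Module.End.eigenspace (Matrix.toLin' A) c := by rw [h1]; trivial
    rwa [Module.End.mem_eigenspace_iff, Matrix.toLin'_apply] at h3
  have h2 : Matrix.toLin' A = Matrix.toLin' (c • (1 : Matrix (Fin n) (Fin n) k)) := by
    apply LinearMap.ext
    intro v
    rw [Matrix.toLin'_apply, Matrix.toLin'_apply, h3, Matrix.smul_mulVec, Matrix.one_mulVec]
  exact Matrix.toLin'.injective h2

section traces

variable {H : Type*} [Group H] [CharZero k]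

/-- the linear extension of a representation to the group algebra -/
noncomputable def lin (ρ : H →* Module.End k (Fin n → k)) :
    MonoidAlgebra k H →ₐ[k] Module.End k (Fin n → k) := MonoidAlgebra.lift k _ H ρ

theorem lin_mem (ρ : H →* Module.End k (Fin n → k)) (r : MonoidAlgebra k H) :
    lin ρ r ∈ Submodule.span k (Set.range ρ) := by
  rw [lin, MonoidAlgebra.lift_apply, Finsupp.sum]
  exact Submodule.sum_mem _ fun h _ => Submodule.smul_mem _ _ (Submodule.subset_span ⟨h, rfl⟩)

theorem lin_of (ρ : H →* Module.End k (Fin n → k)) (h : H) :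
    lin ρ (MonoidAlgebra.of k H h) = ρ h := by
  rw [lin, MonoidAlgebra.lift_of]

theorem trace_lin_mul (ρ ρ' : H →* Module.End k (Fin n → k))
    (htr : ∀ h, LinearMap.trace k _ (ρ h) = LinearMap.trace k _ (ρ' h)) (r : MonoidAlgebra k H) :
    LinearMap.trace k _ (lin ρ r) = LinearMap.trace k _ (lin ρ' r) := by
  rw [lin, lin, MonoidAlgebra.lift_apply, MonoidAlgebra.lift_apply, Finsupp.sum, Finsupp.sum,
    map_sum, map_sum]
  exact Finset.sum_congr rfl fun h _ => by rw [map_smul, map_smul, htr]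

/-- an irreducible representation is determined by its trace: the kernels -/
theorem ker_le (ρ ρ' : H →* Module.End k (Fin n → k))
    (hirr' : ∀ W : Submodule k (Fin n → k), (∀ g, ∀ x ∈ W, ρ' g x ∈ W) → W = ⊥ ∨ W = ⊤)
    (htr : ∀ h, LinearMap.trace k _ (ρ h) = LinearMap.trace k _ (ρ' h)) (r : MonoidAlgebra k H)
    (hr : lin ρ r = 0) : lin ρ' r = 0 := by
  refine Pool.Agent.R401.Burn.eq_zero_of_trace (k := k) (V := Fin n → k) ?_ ρ' ?_ (lin_mem ρ' r) ?_
  · intro m hm _
    exact_mod_cast hm.ne'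
  · intro W hW
    rcases hirr' W hW with h | h
    · exact ⟨⊤, fun g x _ => trivial, by rw [h]; exact isCompl_bot_top⟩
    · exact ⟨⊥, fun g x hx => by
        rw [Submodule.mem_bot] at hx ⊢
        rw [hx, map_zero], by rw [h]; exact isCompl_top_bot⟩
  · intro g
    rw [← lin_of ρ' g, ← map_mul, ← trace_lin_mul ρ ρ' htr, map_mul, hr, zero_mul, map_zero]

/-- there are vectors `v`, `v' ≠ 0` such that `r v = 0` implies `r v' = 0` -/
theorem exists_pair (ρ ρ' : H →* Module.End k (Fin n → k)) (hn : 0 < n)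
    (hker : ∀ r : MonoidAlgebra k H, lin ρ r = 0 → lin ρ' r = 0) :
    ∃ v v' : Fin n → k, v' ≠ 0 ∧ ∀ r : MonoidAlgebra k H, lin ρ r v = 0 → lin ρ' r v' = 0 := by
  by_contra hcon
  push Not at hcon
  have hind : ∀ (l : List (Fin n → k)) (v' : Fin n → k), v' ≠ 0 →
      ∃ r : MonoidAlgebra k H, (∀ v ∈ l, lin ρ r v = 0) ∧ lin ρ' r v' ≠ 0 := by
    intro l
    induction l with
    | nil => exact fun v' hv' => ⟨1, by simp, by simpa using hv'⟩
    | cons v l ih =>
      intro v' hv'
      obtain ⟨r, hr, hr'⟩ := ih v' hv'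
      obtain ⟨s, hs, hs'⟩ := hcon (lin ρ r v) (lin ρ' r v') hr'
      refine ⟨s * r, fun w hw => ?_, ?_⟩
      · rw [map_mul, Module.End.mul_apply]
        rcases List.mem_cons.1 hw with rfl | hw
        · exact hs
        · rw [hr w hw, map_zero]
      · rw [map_mul, Module.End.mul_apply]
        exact hs'
  have : Nonempty (Fin n) := ⟨⟨0, hn⟩⟩
  obtain ⟨v', hv'⟩ := exists_ne (0 : Fin n → k)
  obtain ⟨r, hr, hr'⟩ := hind ((Finset.univ : Finset (Fin n)).toList.map fun i => Pi.single i 1)
    v' hv'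
  apply hr'
  have h0 : lin ρ r = 0 := by
    apply (Pi.basisFun k (Fin n)).ext
    intro i
    rw [Pi.basisFun_apply]
    exact hr _ (List.mem_map.2 ⟨i, by simp, rfl⟩)
  rw [hker r h0, LinearMap.zero_apply]

/-- **Irreducible representations with the same traces are isomorphic.** -/
theorem iso_of_trace (ρ ρ' : H →* Module.End k (Fin n → k)) (hn : 0 < n)
    (hirr : ∀ W : Submodule k (Fin n → k), (∀ g, ∀ x ∈ W, ρ g x ∈ W) → W = ⊥ ∨ W = ⊤)
    (hirr' : ∀ W : Submodule k (Fin n → k), (∀ g, ∀ x ∈ W, ρ' g x ∈ W) → W = ⊥ ∨ W = ⊤)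
    (htr : ∀ h, LinearMap.trace k _ (ρ h) = LinearMap.trace k _ (ρ' h)) :
    ∃ φ : (Fin n → k) ≃ₗ[k] (Fin n → k), ∀ h x, φ (ρ h x) = ρ' h (φ x) := by
  obtain ⟨v, v', hv', hvv⟩ := exists_pair ρ ρ' hn (ker_le ρ ρ' hirr' htr)
  let f : MonoidAlgebra k H →ₗ[k] (Fin n → k) :=
    (LinearMap.applyₗ v).comp (lin ρ).toLinearMap
  let g : MonoidAlgebra k H →ₗ[k] (Fin n → k) :=
    (LinearMap.applyₗ v').comp (lin ρ').toLinearMap
  have hf : ∀ r, f r = lin ρ r v := fun r => rfl
  have hg : ∀ r, g r = lin ρ' r v' := fun r => rfl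
  have hker : LinearMap.ker f ≤ LinearMap.ker g := fun r hr => by
    rw [LinearMap.mem_ker, hg]
    exact hvv r hr
  have hv : v ≠ 0 := by
    rintro rfl
    apply hv'
    have := hvv 1 (by rw [map_zero])
    simpa using this
  have hsurj : Function.Surjective f := by
    rw [← LinearMap.range_eq_top]
    rcases hirr (LinearMap.range f) (by
      rintro h _ ⟨r, rfl⟩
      refine ⟨MonoidAlgebra.of k H h * r, ?_⟩
      rw [hf, hf, map_mul, lin_of, Module.End.mul_apply]) with h | h
    · exfalso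
      apply hv
      have h1 : f 1 ∈ LinearMap.range f := ⟨1, rfl⟩
      rw [h, Submodule.mem_bot, hf, map_one] at h1
      simpa using h1
    · exact h
  let φ : (Fin n → k) →ₗ[k] (Fin n → k) :=
    ((LinearMap.ker f).liftQ g hker).comp (f.quotKerEquivOfSurjective hsurj).symm.toLinearMap
  have hφ : ∀ r, φ (f r) = g r := by
    intro r
    change ((LinearMap.ker f).liftQ g hker) ((f.quotKerEquivOfSurjective hsurj).symm (f r)) = g r
    have : (f.quotKerEquivOfSurjective hsurj).symm (f r) = Submodule.Quotient.mk r := by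
      rw [LinearEquiv.symm_apply_eq]
      rfl
    rw [this]
    rfl
  have heq : ∀ h x, φ (ρ h x) = ρ' h (φ x) := by
    intro h x
    obtain ⟨r, rfl⟩ := hsurj x
    rw [hφ, hg]
    have h1 : ρ h (f r) = f (MonoidAlgebra.of k H h * r) := by
      rw [hf, hf, map_mul, lin_of, Module.End.mul_apply]
    rw [h1, hφ, hg, map_mul, lin_of, Module.End.mul_apply]
  have hinj : Function.Injective φ := by
    rw [← LinearMap.ker_eq_bot]
    rcases hirr (LinearMap.ker φ) (fun h x hx => by
      rw [LinearMap.mem_ker] at hx ⊢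
      rw [heq, hx, map_zero]) with h | h
    · exact h
    · exfalso
      apply hv'
      have h1 : f 1 ∈ LinearMap.ker φ := by rw [h]; trivial
      rw [LinearMap.mem_ker, hφ, hg, map_one] at h1
      simpa using h1
  refine ⟨LinearEquiv.ofInjectiveEndo φ hinj, fun h x => ?_⟩
  exact heq h x

end traces

/-- **Irreducible representations with the same traces are conjugate** (matrix form, on a
subgroup) -/
theorem conj_of_trace [CharZero k] {Γ : Type*} [Group Γ] (U : Subgroup Γ)
    {f f' : Γ → GL (Fin n) k} (hf : ∀ u ∈ U, ∀ v ∈ U, f (u * v) = f u * f v)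
    (hf' : ∀ u ∈ U, ∀ v ∈ U, f' (u * v) = f' u * f' v)
    (hirr : IrrOn (U : Set Γ) f) (hirr' : IrrOn (U : Set Γ) f')
    (htr : ∀ u ∈ U, (f u : Matrix (Fin n) (Fin n) k).trace =
      (f' u : Matrix (Fin n) (Fin n) k).trace) :
    ∃ P : GL (Fin n) k, ∀ u ∈ U, f' u = P * f u * P⁻¹ := by
  classical
  let r : U →* Module.End k (Fin n → k) :=
    { toFun := fun u => Matrix.toLin' (f u : Matrix (Fin n) (Fin n) k)
      map_one' := by
        have h1 := hf 1 U.one_mem 1 U.one_mem
        rw [mul_one] at h1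
        have h2 : f 1 = 1 := by
          have := mul_left_cancel (a := f 1) (b := 1) (c := f 1) (by rw [mul_one, ← h1])
          exact this.symm
        change Matrix.toLin' (f ((1 : U) : Γ) : Matrix (Fin n) (Fin n) k) = 1
        rw [OneMemClass.coe_one, h2]
        simp [Module.End.one_eq_id]
      map_mul' := fun u v => by
        change Matrix.toLin' (f ((u * v : U) : Γ) : Matrix (Fin n) (Fin n) k) = _
        rw [Subgroup.coe_mul, hf u u.2 v v.2, Units.val_mul, Matrix.toLin'_mul]
        rfl }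
  let r' : U →* Module.End k (Fin n → k) :=
    { toFun := fun u => Matrix.toLin' (f' u : Matrix (Fin n) (Fin n) k)
      map_one' := by
        have h1 := hf' 1 U.one_mem 1 U.one_mem
        rw [mul_one] at h1
        have h2 : f' 1 = 1 := by
          have := mul_left_cancel (a := f' 1) (b := 1) (c := f' 1) (by rw [mul_one, ← h1])
          exact this.symm
        change Matrix.toLin' (f' ((1 : U) : Γ) : Matrix (Fin n) (Fin n) k) = 1
        rw [OneMemClass.coe_one, h2]
        simp [Module.End.one_eq_id]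
      map_mul' := fun u v => by
        change Matrix.toLin' (f' ((u * v : U) : Γ) : Matrix (Fin n) (Fin n) k) = _
        rw [Subgroup.coe_mul, hf' u u.2 v v.2, Units.val_mul, Matrix.toLin'_mul]
        rfl }
  obtain ⟨φ, hφ⟩ := iso_of_trace r r' hirr.1
    (fun W hW => hirr.2 W fun h hh w hw => hW ⟨h, hh⟩ w hw)
    (fun W hW => hirr'.2 W fun h hh w hw => hW ⟨h, hh⟩ w hw)
    (fun u => by
      change LinearMap.trace k _ (Matrix.toLin' (f u : Matrix (Fin n) (Fin n) k)) =
        LinearMap.trace k _ (Matrix.toLin' (f' u : Matrix (Fin n) (Fin n) k))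
      rw [Matrix.trace_toLin'_eq, Matrix.trace_toLin'_eq]
      exact htr u u.2)
  let P : GL (Fin n) k :=
    ⟨LinearMap.toMatrix' φ.toLinearMap, LinearMap.toMatrix' φ.symm.toLinearMap, by
      rw [← LinearMap.toMatrix'_comp]
      simp, by
      rw [← LinearMap.toMatrix'_comp]
      simp⟩
  refine ⟨P, fun u hu => ?_⟩
  rw [eq_mul_inv_iff_mul_eq]
  apply Units.ext
  rw [Units.val_mul, Units.val_mul]
  apply Matrix.toLin'.injective
  rw [Matrix.toLin'_mul, Matrix.toLin'_mul]
  have hP : Matrix.toLin' (P : Matrix (Fin n) (Fin n) k) = φ.toLinearMap :=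
    Matrix.toLin'_toMatrix' _
  rw [hP]
  apply LinearMap.ext
  intro x
  exact (hφ ⟨u, hu⟩ x).symm

end Pool.Agent.N60.GD
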